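import Pool.Agent.Helper5.SX.St

set_option autoImplicit false

namespace Pool.Agent.Helper28.SX

open _root_.SX
open Finset
open scoped Classical

variable {V : Type} [Fintype V]

private theorem swap_b_SWO (A : Dat V) (v m : V) (h : A.b m = A.b v) (x : V) :
    A.b (Equiv.swap v m x) = A.b x := by
  by_cases h1 : x = v
  · subst h1; rw [Equiv.swap_apply_left, h]
  · by_cases h2 : x = m
    · subst h2; rw [Equiv.swap_apply_right, h]
    · rw [Equiv.swap_apply_of_ne_of_ne h1 h2]

private theorem mem_Lf_SWO {A : Dat V} {c : V → ℕ} {v z : V} :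
    z ∈ Lf A c v ↔ z ∈ A.N v ∧ c z = A.al := by
  unfold Lf
  rw [Finset.mem_filter]

private theorem base_SWO (A : Dat V) (c : V → ℕ) (v m : V) (hb : Base A c) (hvu : A.b v ≠ A.b A.u)
    (hmv : A.b m = A.b v) (hcm : c m = A.al) (hcv : c v ≠ A.al)
    (hav : ∀ z ∈ A.N m, c z = c v → A.k ≤ c v) (hlf : Lf A c v = ∅) :
    Base A (fun x => c (Equiv.swap v m x)) := by
  have e1 : c (Equiv.swap v m v) = A.al := by rw [Equiv.swap_apply_left, hcm]
  have e2 : c (Equiv.swap v m m) = c v := by rw [Equiv.swap_apply_right]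
  have e3 : ∀ x, x ≠ v → x ≠ m → c (Equiv.swap v m x) = c x := fun x h1 h2 => by
    rw [Equiv.swap_apply_of_ne_of_ne h1 h2]
  have e4 : ∀ x, A.b x ≠ A.b v → c (Equiv.swap v m x) = c x := fun x h => by
    refine e3 x ?_ ?_
    · rintro rfl; exact h rfl
    · rintro rfl; exact h hmv
  have noLf : ∀ z ∈ A.N v, c z ≠ A.al := by
    intro z hz hc
    have : z ∈ Lf A c v := mem_Lf_SWO.2 ⟨hz, hc⟩
    rw [hlf] at this
    exact absurd this (Finset.notMem_empty z)
  refine ⟨⟨?_, ?_⟩, ?_, hb.lt, ?_, ?_⟩
  · intro x w hxw hc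
    have := hb.lab.inj (Equiv.swap v m x) (Equiv.swap v m w)
      (by rw [swap_b_SWO A v m hmv, swap_b_SWO A v m hmv, hxw]) hc
    exact (Equiv.swap v m).injective this
  · intro x w hw hc
    have hbw := A.out x w hw
    by_cases h1 : x = v
    · subst h1
      rw [e1, e4 w hbw] at hc
      exact absurd hc (noLf w hw)
    by_cases h2 : x = m
    · subst h2
      rw [e2, e4 w (fun h => hbw (h.trans hmv.symm))] at hc
      rw [e2]
      exact hav w hw hc
    rw [e3 x h1 h2] at hc ⊢
    by_cases h3 : w = v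
    · subst h3
      rw [e1] at hc
      exact absurd hc.symm (noLf x (A.symm x w hw))
    by_cases h4 : w = m
    · subst h4
      rw [e2] at hc
      rw [← hc]
      exact hav x (A.symm x w hw) hc.symm
    rw [e3 w h3 h4] at hc
    exact hb.lab.prop x w hw hc
  · rw [e4 A.u (fun h => hvu h.symm)]
    exact hb.blank
  · intro x hx
    rw [e4 x (fun h => hvu (h.symm.trans hx))]
    exact hb.miss x hx
  · intro c' hc'
    refine (hb.max c' hc').trans (le_of_eq ?_)
    unfold cnt
    refine Finset.card_bij (fun x _ => Equiv.swap v m x) ?_ ?_ ?_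
    · intro x hx
      rw [Finset.mem_filter] at hx ⊢
      refine ⟨Finset.mem_univ _, ?_⟩
      dsimp only
      rw [Equiv.swap_apply_self]
      exact hx.2
    · intro x _ w _ h
      exact (Equiv.swap v m).injective h
    · intro x hx
      rw [Finset.mem_filter] at hx
      refine ⟨Equiv.swap v m x, ?_, Equiv.swap_apply_self _ _ _⟩
      rw [Finset.mem_filter]
      exact ⟨Finset.mem_univ _, hx.2⟩

theorem hSWO : StBFA → StSWO := by
  intro hBFA V _ A c y l v hst hvu hvS hav hlf hN
  obtain ⟨hmk, hdis, hinj, hnm, _, hmono, hleaf⟩ := hBFA V A c y l hst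
  -- the leaf in the block of v
  obtain ⟨j, hj, m, hmj, hmv⟩ : ∃ j < l, ∃ m ∈ Lf A c (y j), A.b m = A.b v := by
    unfold Sb at hvS
    rw [Finset.mem_insert] at hvS
    rcases hvS with h | h
    · exact absurd h hvu
    · rw [Finset.mem_image] at h
      obtain ⟨m, hm, hmv⟩ := h
      rw [Finset.mem_biUnion] at hm
      obtain ⟨j, hj, hm⟩ := hm
      exact ⟨j, Finset.mem_range.1 hj, m, hm, hmv⟩
  have hmj' := mem_Lf_SWO.1 hmj
  have hvu' : v ≠ A.u := by rintro rfl; exact hvu rfl
  have hav' := hav.resolve_left hvu'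
  have hmM : m ∈ Mk A c := by
    unfold Mk
    rw [Finset.mem_filter]
    exact ⟨Finset.mem_univ _, Or.inr hmj'.2⟩
  have hvm : v ≠ m := by
    rintro rfl
    exact hav'.1 hmj'.2
  set c' : V → ℕ := fun x => c (Equiv.swap v m x) with hc'
  have hbase : Base A c' := base_SWO A c v m hst.base hvu hmv hmj'.2 hav'.1
    (hav'.2 m hmM hmv) hlf
  have e1 : c' v = A.al := by
    show c (Equiv.swap v m v) = A.al
    rw [Equiv.swap_apply_left, hmj'.2]
  have e2 : c' m = c v := by
    show c (Equiv.swap v m m) = c v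
    rw [Equiv.swap_apply_right]
  have e3 : ∀ x, x ≠ v → x ≠ m → c' x = c x := fun x h1 h2 => by
    show c (Equiv.swap v m x) = c x
    rw [Equiv.swap_apply_of_ne_of_ne h1 h2]
  -- v is not in K, and not a neighbour of a centre
  have hyK : ∀ i < l, y i ∈ Kset A c y l := by
    intro i hi
    unfold Kset
    rw [Finset.mem_biUnion]
    exact ⟨i, Finset.mem_range.2 hi, Finset.mem_insert_self _ _⟩
  have hvy : ∀ i < l, v ≠ y i := by
    intro i hi h
    obtain ⟨z, hz⟩ := hst.lf i hi
    rw [← h, hlf] at hz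
    exact absurd hz (Finset.notMem_empty z)
  have hvN : ∀ i < l, v ∉ A.N (y i) := by
    intro i hi h
    exact hN (y i) (A.symm _ _ h) (hyK i hi)
  have hLf : ∀ i < l, Lf A c' (y i) = (Lf A c (y i)).erase m := by
    intro i hi
    ext z
    rw [Finset.mem_erase, mem_Lf_SWO, mem_Lf_SWO]
    constructor
    · rintro ⟨h1, h2⟩
      have hzv : z ≠ v := by rintro rfl; exact hvN i hi h1
      by_cases hzm : z = m
      · subst hzm
        rw [e2] at h2
        exact absurd h2 hav'.1
      · exact ⟨hzm, h1, by rw [← h2, e3 z hzv hzm]⟩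
    · rintro ⟨hzm, h1, h2⟩
      have hzv : z ≠ v := by rintro rfl; exact hvN i hi h1
      exact ⟨h1, by rw [e3 z hzv hzm, h2]⟩
  have hLf2 : ∀ i < j, Lf A c' (y i) = Lf A c (y i) := by
    intro i hi
    rw [hLf i (hi.trans hj)]
    apply Finset.erase_eq_of_notMem
    intro h
    exact Finset.disjoint_left.1 (hdis i j hi hj) h hmj
  have hK : ∀ i ≤ j, Kset A c' y i = Kset A c y i := by
    intro i hi
    unfold Kset
    apply Finset.biUnion_congr rfl
    intro a ha
    rw [Finset.mem_range] at ha
    rw [hLf2 a (lt_of_lt_of_le ha hi)]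
  have hS : ∀ i ≤ j, Sb A c' y i = Sb A c y i := by
    intro i hi
    unfold Sb
    congr 2
    apply Finset.biUnion_congr rfl
    intro a ha
    rw [Finset.mem_range] at ha
    rw [hLf2 a (lt_of_lt_of_le ha hi)]
  have hbm : A.b m ∉ Sb A c y j := hleaf j hj m hmj
  have hAv : ∀ i ≤ j, Av A c' (y i) := by
    intro i hi
    have hil : i < l := lt_of_le_of_lt hi hj
    rcases Nat.eq_zero_or_pos i with h0 | h0
    · subst h0
      exact Or.inl hst.zero
    · right
      have hyu : y i ≠ A.u := by
        intro h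
        have := hinj i hil 0 (lt_of_le_of_lt (Nat.zero_le _) hj) (h.trans hst.zero.symm)
        omega
      obtain ⟨g1, g2⟩ := (hst.av i hil).resolve_left hyu
      have hym : y i ≠ m := by
        intro h
        rw [h] at g1
        exact g1 hmj'.2
      have hcy : c' (y i) = c (y i) := e3 _ (fun h => hvy i hil h.symm) hym
      have hbS : A.b (y i) ∈ Sb A c y j := (hmono i j hi).2 (hst.inS i hil)
      rw [hcy]
      refine ⟨g1, ?_⟩
      intro m' hm' hbm' z hz hcz
      have hb1 : A.b m' ≠ A.b m := by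
        intro h
        rw [← h, hbm'] at hbm
        exact hbm hbS
      have hm'v : m' ≠ v := by
        rintro rfl
        exact hb1 hmv.symm
      have hm'm : m' ≠ m := by
        rintro rfl
        exact hb1 rfl
      have hm'M : m' = A.u ∨ c m' = A.al := by
        unfold Mk at hm'
        rw [Finset.mem_filter] at hm'
        rcases hm'.2 with h | h
        · exact Or.inl h
        · rw [e3 m' hm'v hm'm] at h
          exact Or.inr h
      have hm'M' : m' ∈ Mk A c := by
        unfold Mk
        rw [Finset.mem_filter]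
        exact ⟨Finset.mem_univ _, hm'M⟩
      by_cases hzv : z = v
      · subst hzv
        rw [e1] at hcz
        exact absurd hcz.symm g1
      by_cases hzm : z = m
      · subst hzm
        exfalso
        rcases hm'M with h | h
        · subst h
          have hz0 : z ∈ Lf A c (y 0) := by
            rw [hst.zero]
            exact mem_Lf_SWO.2 ⟨hz, hmj'.2⟩
          exact Finset.disjoint_left.1 (hdis 0 j (by omega) hj) hz0 hmj
        · have h5 := hst.base.lab.prop m' z hz (hmj'.2.trans h.symm)
          have h6 := hst.base.lt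
          rw [h] at h5
          exact absurd h5 (not_le.2 h6)
      · rw [e3 z hzv hzm] at hcz
        exact g2 m' hm'M' hbm' z hz hcz
  refine ⟨c', j, hj, ⟨hbase, hst.zero, ?_, ?_, ?_, ?_⟩, hLf2, ?_, hAv j le_rfl, ?_, ?_⟩
  · intro i hi
    rw [hS i hi.le]
    exact hst.inS i (hi.trans hj)
  · exact fun i hi => hAv i hi.le
  · intro i hi z hz
    rw [hK i hi.le]
    exact hst.und i (hi.trans hj) z hz
  · intro i hi
    rw [hLf2 i hi]
    exact hst.lf i (hi.trans hj)
  · rw [hLf j hj]
    exact Finset.card_erase_lt_of_mem hmj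
  · rw [hS j le_rfl]
    exact hst.inS j hj
  · intro z hz
    rw [hK j le_rfl]
    exact hst.und j hj z hz

end Pool.Agent.Helper28.SX
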